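import Pool.Agent.Mg.F5499e5.Gc7bd66

set_option autoImplicit false

namespace Pool.Agent.Results.MP_5499e5_ag.NearNagataBound

open Pool.Agent.MP_5499e5_ag

/-- Let `N ≥ 2`, `k ≥ 1`, `k^N ≤ r ≤ (k+1)^N`. For `r` very general points of `P^N` over an infinite
field, every nonzero form of degree `d` vanishing to order `n` at all the points satisfies
`d^N ≥ (r - ∑_{i=1}^{N-1} (1+1/k)^i) n^N`. -/
theorem result (K : Type*) [Field K] [Infinite K] :
    ∀ N r k : ℕ, 2 ≤ N → 1 ≤ k → k ^ N ≤ r → r ≤ (k + 1) ^ N →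
      ∃ F : ℕ → MvPolynomial (Fin r × Fin (N + 1)) K,
        (∀ i, F i ≠ 0) ∧
        ∀ P : Fin r → Fin (N + 1) → K,
          (∀ i, MvPolynomial.eval (fun q : Fin r × Fin (N + 1) => P q.1 q.2) (F i) ≠ 0) →
          ∀ n d : ℕ, ∀ f : MvPolynomial (Fin (N + 1)) K,
            f.IsHomogeneous d → f ≠ 0 →
            (∀ j : Fin r, f ∈ (RingHom.ker (MvPolynomial.eval (P j))) ^ n) →
            ((r : ℝ) - ∑ i ∈ Finset.Icc 1 (N - 1), (1 + 1 / (k : ℝ)) ^ i) * (n : ℝ) ^ N ≤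
              (d : ℝ) ^ N := by
  intro N r k hN hk h1 h2
  obtain ⟨N, rfl⟩ : ∃ M, N = M + 1 := ⟨N - 1, by omega⟩
  have hr : 1 ≤ r := le_trans (Nat.one_le_pow _ _ (by omega)) h1
  obtain ⟨c, hc0, hc, hK⟩ := key_explicit (K := K) hk h1 h2
  have hgen : ∀ m d : ℕ, ∃ F : MvPolynomial (Fin r × Fin (N + 1 + 1)) K, F ≠ 0 ∧
      ∀ P : Fin r → Fin (N + 1 + 1) → K,
        MvPolynomial.eval (fun q : Fin r × Fin (N + 1 + 1) => P q.1 q.2) F ≠ 0 →
        ∀ f : MvPolynomial (Fin (N + 1 + 1)) K, f.IsHomogeneous d → f ≠ 0 →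
          (∀ j : Fin r, f ∈ (RingHom.ker (MvPolynomial.eval (P j))) ^ m) → c * m ≤ d := by
    intro m d
    by_cases h : c * m ≤ d
    · exact ⟨1, one_ne_zero, fun _ _ _ _ _ _ => h⟩
    · push Not at h
      obtain ⟨P0, hP0⟩ := special hr hK h
      obtain ⟨F, hF0, hF⟩ := generic P0 hP0
      exact ⟨F, hF0, fun P hP f hf hf0 hv => absurd (hF P hP f hf hv) hf0⟩
  choose F hF0 hF using hgen
  refine ⟨fun i => F (Nat.unpair i).1 (Nat.unpair i).2, fun i => hF0 _ _, ?_⟩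
  intro P hP m d f hf hf0 hv
  have h3 := hP (Nat.pair m d)
  simp only [Nat.unpair_pair] at h3
  have h4 := hF m d P h3 f hf hf0 hv
  have h5 : ∑ i ∈ Finset.Icc 1 (N + 1 - 1), (1 + 1 / (k : ℝ)) ^ i =
      ∑ i ∈ Finset.range N, (1 + 1 / (k : ℝ)) ^ (i + 1) := by
    rw [Nat.add_sub_cancel, ← Finset.Ico_add_one_right_eq_Icc, Finset.sum_Ico_eq_sum_range,
      Nat.add_sub_cancel]
    exact Finset.sum_congr rfl fun i _ => by rw [add_comm 1 i]
  rw [h5]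
  calc _ ≤ c ^ (N + 1) * (m : ℝ) ^ (N + 1) := mul_le_mul_of_nonneg_right hc (by positivity)
    _ = (c * m) ^ (N + 1) := (mul_pow _ _ _).symm
    _ ≤ _ := pow_le_pow_left₀ (by positivity) h4 _

end Pool.Agent.Results.MP_5499e5_ag.NearNagataBound
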