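import Pool.Agent.Mg.F5499e5ap.Gd3ce6b

set_option autoImplicit false

namespace Pool.Agent.Results.MP_5499e5_ag.PowerSavingBound

open Pool.Agent.MP_5499e5_ag.W

/-- For every `N ≥ 2` there are `c` and `γ > 0` such that for all `r` and `r` very general points of
`P^N` over a field of characteristic zero, every nonzero form of degree `d` vanishing to order `n`
at all the points satisfies `d^N ≥ (r - c r^(-γ)) n^N`. -/
theorem result :
    ∀ N : ℕ, 2 ≤ N → ∃ c γ : ℝ, 0 < γ ∧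
      ∀ (K : Type) [Field K] [CharZero K] (r : ℕ),
        ∃ F : ℕ → MvPolynomial (Fin r × Fin (N + 1)) K,
          (∀ i, F i ≠ 0) ∧
          ∀ P : Fin r → Fin (N + 1) → K,
            (∀ i, MvPolynomial.eval (fun q : Fin r × Fin (N + 1) => P q.1 q.2) (F i) ≠ 0) →
            ∀ n d : ℕ, ∀ f : MvPolynomial (Fin (N + 1)) K,
              f.IsHomogeneous d → f ≠ 0 →
              (∀ j : Fin r, f ∈ (RingHom.ker (MvPolynomial.eval (P j))) ^ n) →
              ((r : ℝ) - c * (r : ℝ) ^ (-γ)) * (n : ℝ) ^ N ≤ (d : ℝ) ^ N := by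
  intro N hN
  obtain ⟨c, γ, hγ, H⟩ := s_affq kl_Main eklq_Main N hN
  refine ⟨c, γ, hγ, fun K _ _ r => ?_⟩
  obtain ⟨F, hF0, hF⟩ := s_hom N r K
  refine ⟨F, hF0, fun P hP n d f hf hf0 hv => ?_⟩
  obtain ⟨h0, hgen⟩ := hF P hP
  obtain ⟨g, hg0, hgd, hg⟩ := s_deh N K d f hf hf0
  exact H r K _ hgen n d g hg0 hgd fun j => hg (P j) n (h0 j) (hv j)

end Pool.Agent.Results.MP_5499e5_ag.PowerSavingBound
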