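import Pool.Agent.Mg.F5499e5ap.G84d11e

set_option autoImplicit false

namespace Pool.Agent.Results.MP_5499e5_ag.SmallMultiplicity

open Pool.Agent.MP_5499e5_ag

/-- For every `N ≥ 2` there are `c > 0` and `r₀` such that for `r ≥ r₀` very general points of
`P^N` over a field of characteristic zero and every `n` with `n (log r)^N ≤ c r`, every nonzero
form of degree `d` vanishing to order `n` at all the points satisfies `d^N ≥ r n^N`. -/
theorem result :
    ∀ N : ℕ, 2 ≤ N → ∃ (c : ℝ) (r₀ : ℕ), 0 < c ∧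
      ∀ (K : Type) [Field K] [CharZero K] (r : ℕ), r₀ ≤ r →
        ∃ F : ℕ → MvPolynomial (Fin r × Fin (N + 1)) K,
          (∀ i, F i ≠ 0) ∧
          ∀ P : Fin r → Fin (N + 1) → K,
            (∀ i, MvPolynomial.eval (fun q : Fin r × Fin (N + 1) => P q.1 q.2) (F i) ≠ 0) →
            ∀ n d : ℕ, (n : ℝ) * Real.log r ^ N ≤ c * r →
              ∀ f : MvPolynomial (Fin (N + 1)) K, f.IsHomogeneous d → f ≠ 0 →
              (∀ j : Fin r, f ∈ (RingHom.ker (MvPolynomial.eval (P j))) ^ n) →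
              r * n ^ N ≤ d ^ N := by
  intro N hN
  obtain ⟨c, hc, r₀, H⟩ := X.aff N hN
  refine ⟨c, r₀, hc, fun K _ _ r hr => ?_⟩
  obtain ⟨F, hF0, hF⟩ := W.s_hom N r K
  refine ⟨F, hF0, fun P hP n d hn f hf hf0 hv => ?_⟩
  obtain ⟨h0, hgen⟩ := hF P hP
  obtain ⟨g, hg0, hgd, hg⟩ := W.s_deh N K d f hf hf0
  exact H r hr K _ hgen n d g hg0 hgd (fun j => hg (P j) n (h0 j) (hv j)) hn

end Pool.Agent.Results.MP_5499e5_ag.SmallMultiplicity
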