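import Pool.Agent.Mg.F5499e5ap.G8e207f
import Pool.Agent.Mg.F5499e5ap.G46e84e

set_option autoImplicit false

namespace Pool.Agent.Results.MP_5499e5_ag.VolumeDefect

open Pool.Agent.MP_5499e5_ag.S

/-- For `r` distinct points of projective `N`-space in characteristic zero, with Waldschmidt
constant `w` and asymptotic regularity `s`: below the slope `s` the volume exceeds the expected
volume `u ^ N - r` by at least `⌈s - 1⌉ ((s - u) / (s - 1)) ^ N`; in particular `w ^ N` stays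
below `r` by at least `⌈s - 1⌉ ((s - w) / (s - 1)) ^ N`. -/
theorem result (N r : ℕ) (hN : 1 ≤ N) (hr : 1 ≤ r) (K : Type) [Field K] [CharZero K]
    (P : Fin r → Fin (N + 1) → K) (h0 : ∀ i, P i ≠ 0)
    (h1 : ∀ i j, i ≠ j → LinearIndependent K ![P i, P j]) :
    (1 ≤ wald P ∧ wald P ≤ areg P ∧ areg P ≤ r) ∧
    (∀ u : ℝ, 1 < u → u < areg P →
      (⌈areg P - 1⌉₊ : ℝ) * (areg P - u) ^ N ≤
        (r + hvol P u - u ^ N) * (areg P - 1) ^ N) ∧
    (⌈areg P - 1⌉₊ : ℝ) * (areg P - wald P) ^ N ≤ (r - wald P ^ N) * (areg P - 1) ^ N := by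
  have hA := sA sH
  have hD := sD sH
  have hC := sC (sB sW)
  obtain ⟨-, h2, -, -, h3⟩ := basic_Fin sH hA hD hC ⟨h0, h1⟩ hN hr
  exact ⟨⟨wone_Asy sH hA hD hN hr, h3, h2⟩,
    fun u hu hs => volineq_Fin sH hA hD hC ⟨h0, h1⟩ hN hr hu hs,
    ineq_Fin sH hA hD hC ⟨h0, h1⟩ hN hr⟩

end Pool.Agent.Results.MP_5499e5_ag.VolumeDefect
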